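import Mathlib
import Pool.Agent.helper24.BP.Defs

set_option autoImplicit false

/-!
# Module M1: counting matchings
-/

namespace Pool.Agent.helper12.BP

open Finset Classical
open Pool.Agent.helper24.BP

theorem mem_Mt {N : ℕ} {X Y : Finset (Fin N)} {s : ℕ} {T : Finset (Pair N)} :
    T ∈ Mt X Y s ↔ (T ⊆ X ×ˢ Y ∧ T.card = s) ∧
      (∀ p ∈ T, ∀ p' ∈ T, p.1 = p'.1 → p = p') ∧ (∀ p ∈ T, ∀ p' ∈ T, p.2 = p'.2 → p = p') := by
  unfold Mt
  rw [Finset.mem_filter, Finset.mem_powersetCard]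

theorem card_free {N : ℕ} {X Y : Finset (Fin N)} {s : ℕ} {T : Finset (Pair N)}
    (hT : T ∈ Mt X Y s) :
    ((X \ T.image Prod.fst) ×ˢ (Y \ T.image Prod.snd)).card =
      (X.card - s) * (Y.card - s) := by
  rw [mem_Mt] at hT
  obtain ⟨⟨h1, h2⟩, h3, h4⟩ := hT
  have c1 : (T.image Prod.fst).card = s := by
    rw [Finset.card_image_of_injOn, h2]
    intro p hp p' hp' h
    exact h3 p hp p' hp' h
  have c2 : (T.image Prod.snd).card = s := by
    rw [Finset.card_image_of_injOn, h2]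
    intro p hp p' hp' h
    exact h4 p hp p' hp' h
  have s1 : T.image Prod.fst ⊆ X := by
    intro i hi
    obtain ⟨p, hp, rfl⟩ := Finset.mem_image.1 hi
    exact (Finset.mem_product.1 (h1 hp)).1
  have s2 : T.image Prod.snd ⊆ Y := by
    intro i hi
    obtain ⟨p, hp, rfl⟩ := Finset.mem_image.1 hi
    exact (Finset.mem_product.1 (h1 hp)).2
  rw [Finset.card_product, Finset.card_sdiff_of_subset s1, Finset.card_sdiff_of_subset s2, c1, c2]

/-- **M1a** -/
theorem card_Mt_succ {N : ℕ} (X Y : Finset (Fin N)) (s : ℕ) :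
    (s + 1) * (Mt X Y (s + 1)).card = (Mt X Y s).card * ((X.card - s) * (Y.card - s)) := by
  have hL : ((Mt X Y (s + 1)).sigma (fun T' => T')).card = (s + 1) * (Mt X Y (s + 1)).card := by
    rw [Finset.card_sigma, Finset.sum_congr rfl (fun T hT => (mem_Mt.1 hT).1.2), Finset.sum_const,
      smul_eq_mul, mul_comm]
  have hR : ((Mt X Y s).sigma
      (fun T => (X \ T.image Prod.fst) ×ˢ (Y \ T.image Prod.snd))).card =
      (Mt X Y s).card * ((X.card - s) * (Y.card - s)) := by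
    rw [Finset.card_sigma, Finset.sum_congr rfl (fun T hT => card_free hT), Finset.sum_const,
      smul_eq_mul]
  rw [← hL, ← hR]
  refine Finset.card_nbij' (fun x => ⟨x.1.erase x.2, x.2⟩) (fun x => ⟨insert x.2 x.1, x.2⟩)
    ?_ ?_ ?_ ?_
  · rintro ⟨T, p⟩ hx
    rw [Finset.mem_coe, Finset.mem_sigma] at hx
    obtain ⟨hT, hp⟩ := hx
    simp only at hT hp
    rw [mem_Mt] at hT
    obtain ⟨⟨h1, h2⟩, h3, h4⟩ := hT
    rw [Finset.mem_coe, Finset.mem_sigma]
    refine ⟨mem_Mt.2 ⟨⟨(Finset.erase_subset _ _).trans h1, ?_⟩, ?_, ?_⟩, ?_⟩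
    · rw [Finset.card_erase_of_mem hp, h2]; rfl
    · intro q hq q' hq' h
      exact h3 q (Finset.mem_of_mem_erase hq) q' (Finset.mem_of_mem_erase hq') h
    · intro q hq q' hq' h
      exact h4 q (Finset.mem_of_mem_erase hq) q' (Finset.mem_of_mem_erase hq') h
    · simp only [Finset.mem_product, Finset.mem_sdiff, Finset.mem_image, not_exists, not_and]
      have hm := Finset.mem_product.1 (h1 hp)
      refine ⟨⟨hm.1, fun q hq h => ?_⟩, hm.2, fun q hq h => ?_⟩
      · exact Finset.ne_of_mem_erase hq (h3 q (Finset.mem_of_mem_erase hq) p hp h)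
      · exact Finset.ne_of_mem_erase hq (h4 q (Finset.mem_of_mem_erase hq) p hp h)
  · rintro ⟨T, p⟩ hx
    rw [Finset.mem_coe, Finset.mem_sigma] at hx
    obtain ⟨hT, hp⟩ := hx
    simp only at hT hp
    rw [mem_Mt] at hT
    obtain ⟨⟨h1, h2⟩, h3, h4⟩ := hT
    simp only [Finset.mem_product, Finset.mem_sdiff, Finset.mem_image, not_exists, not_and] at hp
    obtain ⟨⟨hp1, hp2⟩, hp3, hp4⟩ := hp
    have hpT : p ∉ T := fun h => hp2 p h rfl
    rw [Finset.mem_coe, Finset.mem_sigma]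
    refine ⟨mem_Mt.2 ⟨⟨?_, ?_⟩, ?_, ?_⟩, Finset.mem_insert_self _ _⟩
    · intro q hq
      rcases Finset.mem_insert.1 hq with h | h
      · rw [h]; exact Finset.mem_product.2 ⟨hp1, hp3⟩
      · exact h1 h
    · show (insert p T).card = s + 1
      rw [Finset.card_insert_of_notMem hpT, h2]
    · intro q hq q' hq' h
      rcases Finset.mem_insert.1 hq with e | e <;> rcases Finset.mem_insert.1 hq' with e' | e'
      · rw [e, e']
      · rw [e] at h ⊢
        exact absurd h.symm (hp2 q' e')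
      · rw [e'] at h ⊢
        exact absurd h (hp2 q e)
      · exact h3 q e q' e' h
    · intro q hq q' hq' h
      rcases Finset.mem_insert.1 hq with e | e <;> rcases Finset.mem_insert.1 hq' with e' | e'
      · rw [e, e']
      · rw [e] at h ⊢
        exact absurd h.symm (hp4 q' e')
      · rw [e'] at h ⊢
        exact absurd h (hp4 q e)
      · exact h4 q e q' e' h
  · rintro ⟨T, p⟩ hx
    rw [Finset.mem_coe, Finset.mem_sigma] at hx
    obtain ⟨hT, hp⟩ := hx
    simp only at hp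
    simp only [Finset.insert_erase hp]
  · rintro ⟨T, p⟩ hx
    rw [Finset.mem_coe, Finset.mem_sigma] at hx
    obtain ⟨hT, hp⟩ := hx
    simp only [Finset.mem_product, Finset.mem_sdiff, Finset.mem_image, not_exists, not_and] at hp
    have hpT : p ∉ T := fun h => hp.1.2 p h rfl
    simp only [Finset.erase_insert hpT]

theorem mt_step {N : ℕ} (s : ℕ) :
    (s + 1) * (Mt (univ : Finset (Fin N)) univ (s + 1)).card ≤
      (Mt (univ : Finset (Fin N)) univ s).card * N ^ 2 := by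
  rw [card_Mt_succ]
  refine Nat.mul_le_mul_left _ ?_
  rw [Finset.card_univ, Fintype.card_fin, pow_two]
  exact Nat.mul_le_mul (Nat.sub_le _ _) (Nat.sub_le _ _)

theorem mt_le {N : ℕ} (j : ℕ) : (Mt (univ : Finset (Fin N)) univ j).card ≤ N ^ (2 * j) := by
  induction j with
  | zero =>
    have : Mt (univ : Finset (Fin N)) univ 0 ⊆ {∅} := by
      intro T hT
      rw [mem_Mt] at hT
      rw [Finset.mem_singleton]
      exact Finset.card_eq_zero.1 hT.1.2
    calc _ ≤ _ := Finset.card_le_card this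
      _ = 1 := Finset.card_singleton _
      _ ≤ _ := by simp
  | succ j ih =>
    have h := mt_step (N := N) j
    calc (Mt (univ : Finset (Fin N)) univ (j + 1)).card
        ≤ (j + 1) * (Mt (univ : Finset (Fin N)) univ (j + 1)).card :=
          Nat.le_mul_of_pos_left _ (Nat.succ_pos _)
      _ ≤ (Mt (univ : Finset (Fin N)) univ j).card * N ^ 2 := h
      _ ≤ N ^ (2 * j) * N ^ 2 := Nat.mul_le_mul_right _ ih
      _ = N ^ (2 * (j + 1)) := by rw [← pow_add]; congr 1

theorem mt_up {N : ℕ} (t e : ℕ) :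
    (Mt (univ : Finset (Fin N)) univ (t + e)).card * t ^ e ≤
      (Mt (univ : Finset (Fin N)) univ t).card * N ^ (2 * e) := by
  induction e with
  | zero => simp
  | succ e ih =>
    have h := mt_step (N := N) (t + e)
    calc (Mt (univ : Finset (Fin N)) univ (t + (e + 1))).card * t ^ (e + 1)
        = (t * (Mt (univ : Finset (Fin N)) univ (t + e + 1)).card) * t ^ e := by
          rw [pow_succ, ← add_assoc]; ring
      _ ≤ ((t + e + 1) * (Mt (univ : Finset (Fin N)) univ (t + e + 1)).card) * t ^ e := by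
          gcongr; omega
      _ ≤ ((Mt (univ : Finset (Fin N)) univ (t + e)).card * N ^ 2) * t ^ e := by
          gcongr
      _ = ((Mt (univ : Finset (Fin N)) univ (t + e)).card * t ^ e) * N ^ 2 := by ring
      _ ≤ ((Mt (univ : Finset (Fin N)) univ t).card * N ^ (2 * e)) * N ^ 2 := by
          gcongr
      _ = (Mt (univ : Finset (Fin N)) univ t).card * N ^ (2 * (e + 1)) := by
          rw [mul_assoc, ← pow_add]; congr 1

theorem mt_low {N : ℕ} (X Y : Finset (Fin N)) {n1 g : ℕ} (hX : n1 ≤ X.card)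
    (hY : n1 ≤ Y.card) (k : ℕ) (hk : k ≤ g) :
    ((n1 - g) ^ 2) ^ k ≤ (Mt X Y k).card * k.factorial := by
  induction k with
  | zero =>
    have : (∅ : Finset (Pair N)) ∈ Mt X Y 0 := by
      rw [mem_Mt]; simp
    have h := Finset.card_pos.2 ⟨_, this⟩
    simpa using h
  | succ k ih =>
    have h := card_Mt_succ X Y k
    calc ((n1 - g) ^ 2) ^ (k + 1) = ((n1 - g) ^ 2) ^ k * ((n1 - g) * (n1 - g)) := by
          rw [pow_succ]; ring
      _ ≤ ((Mt X Y k).card * k.factorial) * ((X.card - k) * (Y.card - k)) := by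
          refine Nat.mul_le_mul (ih (by omega)) (Nat.mul_le_mul ?_ ?_) <;> omega
      _ = ((Mt X Y k).card * ((X.card - k) * (Y.card - k))) * k.factorial := by ring
      _ = ((k + 1) * (Mt X Y (k + 1)).card) * k.factorial := by rw [h]
      _ = (Mt X Y (k + 1)).card * (k + 1).factorial := by
          rw [Nat.factorial_succ]; ring

/-- **M1b** -/
theorem mt_ratio {N : ℕ} (X Y : Finset (Fin N)) {n1 t g j : ℕ} (hX : n1 ≤ X.card)
    (hY : n1 ≤ Y.card) (hjg : j ≤ g) (hjt : j ≤ t) (ht : 1 ≤ t) (hgn : g ≤ n1)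
    (h : 9 * N ^ 2 * g ≤ (n1 - g) ^ 2 * t) :
    9 ^ g * ((Mt (univ : Finset (Fin N)) univ j).card *
      (Mt (univ : Finset (Fin N)) univ (t - j + g)).card) ≤
      t ^ j * ((Mt (univ : Finset (Fin N)) univ t).card * (Mt X Y g).card) := by
  have _ := hgn
  obtain ⟨e, rfl⟩ : ∃ e, g = j + e := ⟨g - j, by omega⟩
  rw [show t - j + (j + e) = t + e by omega]
  obtain ⟨A, hA⟩ : ∃ A, A = (Mt (univ : Finset (Fin N)) univ j).card := ⟨_, rfl⟩
  obtain ⟨B, hB⟩ : ∃ B, B = (Mt (univ : Finset (Fin N)) univ (t + e)).card := ⟨_, rfl⟩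
  obtain ⟨M, hM⟩ : ∃ M, M = (Mt (univ : Finset (Fin N)) univ t).card := ⟨_, rfl⟩
  obtain ⟨G, hG⟩ : ∃ G, G = (Mt X Y (j + e)).card := ⟨_, rfl⟩
  have h1 : A ≤ N ^ (2 * j) := hA ▸ mt_le j
  have h2 : B * t ^ e ≤ M * N ^ (2 * e) := by rw [hB, hM]; exact mt_up t e
  have h3 : ((n1 - (j + e)) ^ 2) ^ (j + e) ≤ G * (j + e) ^ (j + e) := by
    rw [hG]
    exact (mt_low X Y hX hY (j + e) le_rfl).trans
      (Nat.mul_le_mul_left _ (Nat.factorial_le_pow _))
  rw [← hA, ← hB, ← hM, ← hG]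
  have hpos : 0 < t ^ e * (j + e) ^ (j + e) := by
    refine Nat.mul_pos (Nat.pow_pos (by omega)) ?_
    rcases Nat.eq_zero_or_pos (j + e) with h0 | h0
    · rw [h0]; norm_num
    · exact Nat.pow_pos h0
  refine Nat.le_of_mul_le_mul_right ?_ hpos
  calc 9 ^ (j + e) * (A * B) * (t ^ e * (j + e) ^ (j + e))
      = 9 ^ (j + e) * A * (B * t ^ e) * (j + e) ^ (j + e) := by ring
    _ ≤ 9 ^ (j + e) * N ^ (2 * j) * (M * N ^ (2 * e)) * (j + e) ^ (j + e) := by gcongr
    _ = M * (9 * N ^ 2 * (j + e)) ^ (j + e) := by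
        rw [mul_pow, mul_pow, ← pow_mul, show 2 * (j + e) = 2 * j + 2 * e by ring, pow_add N]
        ring
    _ ≤ M * ((n1 - (j + e)) ^ 2 * t) ^ (j + e) := by gcongr
    _ = M * ((n1 - (j + e)) ^ 2) ^ (j + e) * t ^ (j + e) := by rw [mul_pow]; ring
    _ ≤ M * (G * (j + e) ^ (j + e)) * t ^ (j + e) := by gcongr
    _ = t ^ j * (M * G) * (t ^ e * (j + e) ^ (j + e)) := by rw [pow_add t]; ring

end Pool.Agent.helper12.BP
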