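import Mathlib

set_option autoImplicit false

/-!
# Module M12b: asymptotics of the parameters
-/

namespace Pool.Agent.helper12.BP

open Filter

theorem two_le_exp : (2 : ℝ) ≤ Real.exp 1 := by
  have := Real.add_one_le_exp (1 : ℝ)
  linarith

theorem two_pow_le (j : ℕ) : (2 : ℝ) ^ j ≤ Real.exp j := by
  have h := pow_le_pow_left₀ (by norm_num : (0 : ℝ) ≤ 2) two_le_exp j
  rwa [← Real.exp_nat_mul, mul_one] at h

theorem exp_le_three_pow (j : ℕ) : Real.exp j ≤ (3 : ℝ) ^ j := by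
  have h3 : Real.exp 1 ≤ 3 := by
    have := Real.exp_one_lt_d9
    linarith
  have h := pow_le_pow_left₀ (Real.exp_pos 1).le h3 j
  rwa [← Real.exp_nat_mul, mul_one] at h

/-- `C(N, n0) ≤ (e D)^n0` where `N = D n0`. -/
theorem choose_bound {k N n0 : ℕ} (h : 2 ^ (32 * k + 3) * n0 = N) :
    (N.choose n0 : ℝ) ≤ Real.exp (n0 * (32 * k + 4)) := by
  obtain ⟨D, hD⟩ : ∃ D : ℝ, D = 2 ^ (32 * k + 3) := ⟨_, rfl⟩
  have hDpos : 0 < D := by rw [hD]; positivity
  have hN : (N : ℝ) = D * n0 := by rw [← h, hD]; push_cast; ring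
  have h1 : (N.choose n0 : ℝ) * (1 / D) ^ n0 ≤ (1 / D + 1) ^ N := by
    rw [add_pow]
    have hle : n0 ∈ Finset.range (N + 1) := by
      rw [Finset.mem_range]
      have : n0 ≤ N := by
        rw [← h]
        exact Nat.le_mul_of_pos_left _ (by positivity)
      omega
    have h2 := Finset.single_le_sum (f := fun i => (1 / D) ^ i * 1 ^ (N - i) * (N.choose i : ℝ))
      (fun i _ => by positivity) hle
    simp only [one_pow, mul_one] at h2 ⊢
    rw [mul_comm]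
    exact h2
  have h2 : (1 / D + 1) ^ N ≤ Real.exp n0 := by
    have h3 := pow_le_pow_left₀ (by positivity) (Real.add_one_le_exp (1 / D)) N
    rw [← Real.exp_nat_mul, hN] at h3
    rwa [show D * (n0 : ℝ) * (1 / D) = n0 by field_simp] at h3
  have h3 : D ≤ Real.exp (32 * k + 3) := by
    have := two_pow_le (32 * k + 3)
    rw [hD]
    push_cast at this
    exact this
  have h4 : (N.choose n0 : ℝ) ≤ D ^ n0 * Real.exp n0 := by
    have h5 : (N.choose n0 : ℝ) = D ^ n0 * ((N.choose n0 : ℝ) * (1 / D) ^ n0) := by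
      rw [one_div, inv_pow]
      field_simp
    rw [h5]
    exact mul_le_mul_of_nonneg_left (h1.trans h2) (by positivity)
  refine h4.trans ?_
  have h6 : D ^ n0 ≤ Real.exp (n0 * (32 * k + 3)) := by
    have := pow_le_pow_left₀ hDpos.le h3 n0
    rwa [← Real.exp_nat_mul] at this
  calc D ^ n0 * Real.exp n0 ≤ Real.exp (n0 * (32 * k + 3)) * Real.exp n0 := by gcongr
    _ = Real.exp (n0 * (32 * k + 4)) := by rw [← Real.exp_add]; congr 1; ring

theorem fin1 {G r t g n : ℕ} (hn : 0 < n) (ht : t + 1 ≤ n)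
    (h : (G : ℝ) + r + 3 + Real.log n < g) :
    (2 : ℝ) ^ (G + r + 3) * (t + 1) < 3 ^ g := by
  have hn' : (0 : ℝ) < n := by exact_mod_cast hn
  have h1 : (2 : ℝ) ^ (G + r + 3) ≤ Real.exp (G + r + 3) := by
    have := two_pow_le (G + r + 3)
    push_cast at this
    exact this
  have h2 : (t : ℝ) + 1 ≤ Real.exp (Real.log n) := by
    rw [Real.exp_log hn']
    exact_mod_cast ht
  calc (2 : ℝ) ^ (G + r + 3) * (t + 1) ≤ Real.exp (G + r + 3) * Real.exp (Real.log n) := by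
        gcongr
    _ = Real.exp (G + r + 3 + Real.log n) := by
        rw [Real.exp_add ((G : ℝ) + r + 3)]
    _ < Real.exp g := Real.exp_lt_exp.2 h
    _ ≤ 3 ^ g := exp_le_three_pow g

theorem fin2 {G r t m N n0 k S : ℕ} {y : ℝ} (hN : 2 ≤ N) (hy : 0 ≤ y)
    (hD : 2 ^ (32 * k + 3) * n0 = N) (hS : (S : ℝ) ≤ Real.exp y)
    (h : (G : ℝ) + r + 3 + (r + 1) * (y + 1 + G) + 2 * (n0 * (32 * k + 4)) +
      t * (9 * Real.log N) ≤ m * Real.log N) :
    (2 : ℝ) ^ (G + r + 3) * ((S * (G + 1) + 1) ^ (r + 1) * (N.choose n0) ^ 2 *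
      (2 * N ^ 8) ^ t) ≤ N ^ m := by
  have hN' : (2 : ℝ) ≤ N := by exact_mod_cast hN
  have hN0 : (0 : ℝ) < N := by linarith
  have h1 : (2 : ℝ) ^ (G + r + 3) ≤ Real.exp (G + r + 3) := by
    have := two_pow_le (G + r + 3)
    push_cast at this
    exact this
  have h2 : (S : ℝ) * (G + 1) + 1 ≤ Real.exp (y + 1 + G) := by
    have e1 : (G : ℝ) + 1 ≤ Real.exp G := Real.add_one_le_exp _
    have e2 : (1 : ℝ) ≤ Real.exp y := Real.one_le_exp hy
    have e3 := two_le_exp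
    have e4 : (0 : ℝ) ≤ G := Nat.cast_nonneg _
    calc (S : ℝ) * (G + 1) + 1 ≤ (S + 1) * (G + 1) := by nlinarith
      _ ≤ (Real.exp y * Real.exp 1) * Real.exp G := by
          refine mul_le_mul ?_ e1 (by positivity) (by positivity)
          nlinarith
      _ = Real.exp (y + 1 + G) := by rw [Real.exp_add, Real.exp_add]
  have h2' : ((S : ℝ) * (G + 1) + 1) ^ (r + 1) ≤ Real.exp ((r + 1) * (y + 1 + G)) := by
    have := pow_le_pow_left₀ (by positivity) h2 (r + 1)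
    rw [← Real.exp_nat_mul] at this
    push_cast at this
    exact this
  have h3 : ((N.choose n0 : ℕ) : ℝ) ^ 2 ≤ Real.exp (2 * (n0 * (32 * k + 4))) := by
    have := pow_le_pow_left₀ (by positivity) (choose_bound hD) 2
    rw [← Real.exp_nat_mul] at this
    push_cast at this
    exact this
  have h4 : (2 * (N : ℝ) ^ 8) ^ t ≤ Real.exp (t * (9 * Real.log N)) := by
    have e1 : 2 * (N : ℝ) ^ 8 ≤ Real.exp (9 * Real.log N) := by
      have : Real.exp (9 * Real.log N) = (N : ℝ) ^ 9 := by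
        have := Real.exp_nat_mul (Real.log N) 9
        rw [Real.exp_log hN0] at this
        push_cast at this
        exact this
      rw [this, pow_succ (N : ℝ) 8, mul_comm]
      gcongr
    have := pow_le_pow_left₀ (by positivity) e1 t
    rwa [← Real.exp_nat_mul] at this
  have h5 : (N : ℝ) ^ m = Real.exp (m * Real.log N) := by
    rw [Real.exp_nat_mul, Real.exp_log hN0]
  rw [h5]
  calc (2 : ℝ) ^ (G + r + 3) * ((S * (G + 1) + 1) ^ (r + 1) * (N.choose n0) ^ 2 *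
      (2 * N ^ 8) ^ t)
      ≤ Real.exp (G + r + 3) * (Real.exp ((r + 1) * (y + 1 + G)) *
        Real.exp (2 * (n0 * (32 * k + 4))) * Real.exp (t * (9 * Real.log N))) := by
        gcongr
    _ = Real.exp ((G : ℝ) + r + 3 + (r + 1) * (y + 1 + G) + 2 * (n0 * (32 * k + 4)) +
      t * (9 * Real.log N)) := by
        rw [Real.exp_add ((G : ℝ) + r + 3 + (r + 1) * (y + 1 + G) + 2 * (n0 * (32 * k + 4))),
          Real.exp_add ((G : ℝ) + r + 3 + (r + 1) * (y + 1 + G)),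
          Real.exp_add ((G : ℝ) + r + 3)]
        ring
    _ ≤ Real.exp (m * Real.log N) := Real.exp_le_exp.2 h

theorem fin3 {G r t m N n0 S g : ℕ}
    (h1 : (2 : ℝ) ^ (G + r + 3) * (t + 1) < 3 ^ g) (hN : 1 ≤ N)
    (h2 : (2 : ℝ) ^ (G + r + 3) * ((S * (G + 1) + 1) ^ (r + 1) * (N.choose n0) ^ 2 *
      (2 * N ^ 8) ^ t) ≤ N ^ m) :
    2 ^ (G + r + 2) * ((t + 1) * N ^ m +
          3 ^ g * (S * (G + 1) + 1) ^ (r + 1) * (N.choose n0) ^ 2 * (2 * N ^ 8) ^ t) <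
        3 ^ g * N ^ m := by
  have hN' : (1 : ℝ) ≤ N := by exact_mod_cast hN
  have key : (2 : ℝ) ^ (G + r + 2) * ((t + 1) * N ^ m +
          3 ^ g * (S * (G + 1) + 1) ^ (r + 1) * (N.choose n0) ^ 2 * (2 * N ^ 8) ^ t) <
        3 ^ g * N ^ m := by
    obtain ⟨Z, hZ⟩ : ∃ Z : ℝ, Z = ((S : ℝ) * (G + 1) + 1) ^ (r + 1) * (N.choose n0) ^ 2 *
      (2 * N ^ 8) ^ t := ⟨_, rfl⟩
    rw [← hZ] at h2
    rw [show (3 : ℝ) ^ g * ((S : ℝ) * (G + 1) + 1) ^ (r + 1) * (N.choose n0) ^ 2 *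
      (2 * N ^ 8) ^ t = 3 ^ g * Z by rw [hZ]; ring]
    obtain ⟨P, hP⟩ : ∃ P : ℝ, P = 2 ^ (G + r + 2) := ⟨_, rfl⟩
    rw [show (2 : ℝ) ^ (G + r + 3) = 2 * P by rw [hP]; ring] at h1 h2
    rw [← hP]
    have hNm : (0 : ℝ) < (N : ℝ) ^ m := by positivity
    have hg : (0 : ℝ) < 3 ^ g := by positivity
    have e1 : 2 * P * (t + 1) * N ^ m < 3 ^ g * N ^ m := by gcongr
    have e2 : 3 ^ g * (2 * P * Z) ≤ 3 ^ g * N ^ m := by gcongr
    nlinarith
  exact_mod_cast key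

/-- the eventual facts -/
theorem ev_facts {θ : ℝ} (hθ : 0 < θ) (C : ℝ) : ∀ᶠ n : ℕ in atTop,
    (1000 : ℝ) ≤ Real.log n ∧ Real.log n ≤ (n : ℝ) ^ θ ∧ (10 : ℝ) ^ 6 ≤ (n : ℝ) ^ θ ∧
      2 * |C| + 2 ≤ (n : ℝ) ^ θ := by
  have h1 : Tendsto (fun n : ℕ => Real.log n) atTop atTop :=
    Real.tendsto_log_atTop.comp tendsto_natCast_atTop_atTop
  have h2 : Tendsto (fun n : ℕ => (n : ℝ) ^ θ) atTop atTop :=
    (tendsto_rpow_atTop hθ).comp tendsto_natCast_atTop_atTop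
  have h3 : ∀ᶠ x : ℝ in atTop, Real.log x ≤ x ^ θ := by
    have := (isLittleO_log_rpow_atTop hθ).bound (zero_lt_one' ℝ)
    filter_upwards [this, eventually_ge_atTop (1 : ℝ)] with x hx hx1
    rw [one_mul, Real.norm_of_nonneg (Real.log_nonneg hx1),
      Real.norm_of_nonneg (Real.rpow_nonneg (by linarith) _)] at hx
    exact hx
  filter_upwards [h1.eventually_ge_atTop 1000, tendsto_natCast_atTop_atTop.eventually h3,
    h2.eventually_ge_atTop (10 ^ 6), h2.eventually_ge_atTop (2 * |C| + 2)] with n a b c' d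
  exact ⟨a, b, c', d⟩

/-- integer part of the choice of the parameters -/
theorem params {n k N t m D g : ℕ} (hk : 1 ≤ k) (hD : D = 2 ^ (32 * k + 3))
    (hNm : N = 2 * D * m) (hn4 : n < 4 * N) (ht : t ≤ N) (hg : g = t / (144 * D ^ 2))
    (hN32 : 32 * k ≤ N) :
    2 ^ (4 * (8 * k) + 3) * (2 * m) = N ∧
      2 * (8 * k) ^ 2 * (N / (16 * k)) ≤ 8 * k * N ∧
      k * n ≤ 2 * (8 * k) ^ 2 * (N / (16 * k)) ∧ g ≤ t ∧ g + m ≤ 2 * m ∧
      9 * N ^ 2 * g ≤ (2 * m - m - g) ^ 2 * t := by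
  have hD1 : 1 ≤ D := by rw [hD]; exact Nat.one_le_two_pow
  have hgt : 144 * D ^ 2 * g ≤ t := by rw [hg]; exact Nat.mul_div_le _ _
  have hgm : 2 * g ≤ m := by
    have h1 : 144 * D ^ 2 * g ≤ 2 * D * m := hgt.trans (ht.trans hNm.le)
    have h2 : D * (72 * D * g) ≤ D * m := by nlinarith
    have h3 : 72 * D * g ≤ m := Nat.le_of_mul_le_mul_left h2 hD1
    nlinarith
  refine ⟨?_, ?_, ?_, ?_, ?_, ?_⟩
  · rw [show 4 * (8 * k) + 3 = 32 * k + 3 by ring, ← hD, hNm]; ring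
  · have h1 : 16 * k * (N / (16 * k)) ≤ N := Nat.mul_div_le _ _
    calc 2 * (8 * k) ^ 2 * (N / (16 * k)) = 8 * k * (16 * k * (N / (16 * k))) := by ring
      _ ≤ 8 * k * N := Nat.mul_le_mul_left _ h1
  · have h1 : N < 16 * k * (N / (16 * k)) + 16 * k := by
      have h2 := Nat.mod_add_div N (16 * k)
      have h3 := Nat.mod_lt N (show 16 * k > 0 by omega)
      omega
    have h2 : N ≤ 2 * (16 * k * (N / (16 * k))) := by omega
    calc k * n ≤ k * (4 * N) := Nat.mul_le_mul_left _ hn4.le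
      _ ≤ k * (4 * (2 * (16 * k * (N / (16 * k))))) := by gcongr
      _ = 2 * (8 * k) ^ 2 * (N / (16 * k)) := by ring
  · rw [hg]; exact Nat.div_le_self _ _
  · omega
  · rw [show 2 * m - m - g = m - g by omega]
    have h1 : m ≤ 2 * (m - g) := by omega
    have h2 : m ^ 2 ≤ (2 * (m - g)) ^ 2 := Nat.pow_le_pow_left h1 2
    have h3 : 4 * (9 * N ^ 2 * g) ≤ 4 * ((m - g) ^ 2 * t) := by
      calc 4 * (9 * N ^ 2 * g) = m ^ 2 * (144 * D ^ 2 * g) := by rw [hNm]; ring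
        _ ≤ (2 * (m - g)) ^ 2 * t := Nat.mul_le_mul h2 hgt
        _ = 4 * ((m - g) ^ 2 * t) := by ring
    omega

theorem aux1 {D w : ℝ} (h : D ^ 2 ≤ 64 * w) (hw : 1 ≤ w) (hD : 0 ≤ D) : D ≤ 8 * w := by
  nlinarith

theorem aux2 {A w : ℝ} (hA : 1 ≤ A) (hw : 1 ≤ w) : 1 ≤ A * w ^ 6 := by
  have := one_le_pow₀ hw (n := 6)
  nlinarith

theorem aux3 {A w : ℝ} (e1 : (1 : ℝ) ≤ A * w ^ 6) (e2 : (10 : ℝ) ^ 6 * (A * w ^ 6) ≤ A * w ^ 8) :
    A * w ^ 5 * (9216 * w) ≤ A * w ^ 8 / 4 - 1 := by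
  have : A * w ^ 5 * (9216 * w) = 9216 * (A * w ^ 6) := by ring
  rw [this]
  linarith

theorem aux4 {n N e : ℝ} (hN : 0 ≤ N) (h : n ≤ 4 * N) (he : 2 ^ 2 ≤ e) : n ≤ N * e := by
  nlinarith

theorem aux5 {A w m : ℝ} (h : A * w ^ 16 / 16 ≤ 2 * (8 * w) * m) :
    A * w ^ 15 * w ≤ 256 * m * w := by
  have : A * w ^ 15 * w = 16 * (A * w ^ 16 / 16) := by ring
  rw [this]
  linarith

theorem aux6 {A w m : ℝ} (h4 : A * w ^ 15 ≤ 256 * m) (e1 : (1024 : ℝ) * (A * w ^ 4) ≤ A * w ^ 15) :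
    4 * (w ^ 3 * (A * w)) ≤ m := by
  have : 4 * (w ^ 3 * (A * w)) = 4 * (A * w ^ 4) := by ring
  rw [this]
  linarith

theorem aux7 {b w x : ℝ} (h : b ≤ w) (hx : 0 ≤ x) : b * x ≤ w * x * 1 := by
  rw [mul_one]
  exact mul_le_mul_of_nonneg_right h hx

/-- **M12b** -/
theorem numeric {a a' : ℝ} (ha : 0 ≤ a) (haa : a < a') (ha1 : a' < 1) :
    ∃ c : ℝ, 0 < c ∧ ∀ C : ℝ, ∀ᶠ n : ℕ in Filter.atTop, ∀ k : ℕ, 1 ≤ k →
      (k : ℝ) ≤ c * Real.log n → ∀ N t S G : ℕ, N = 2 ^ (Nat.log 2 n - 1) →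
      t = ⌊(N : ℝ) ^ a'⌋₊ → (S : ℝ) ≤ Real.exp (c ^ k * n * Real.log n) →
      (G : ℝ) ≤ C * ((n : ℝ) + 1) ^ a →
      ∃ K r ℓ n0 m g : ℕ, 1 ≤ K ∧ 2 ^ (4 * K + 3) * n0 = N ∧ r * ℓ ≤ K * N ∧ k * n ≤ r * ℓ ∧
        2 * K ^ 2 ≤ r ∧ g ≤ t ∧ g + m ≤ n0 ∧ 9 * N ^ 2 * g ≤ (n0 - m - g) ^ 2 * t ∧
        2 ^ (G + r + 2) * ((t + 1) * N ^ m +
          3 ^ g * (S * (G + 1) + 1) ^ (r + 1) * (N.choose n0) ^ 2 * (2 * N ^ 8) ^ t) <
        3 ^ g * N ^ m := by
  obtain ⟨θ, hθ⟩ : ∃ θ, θ = min (a' - a) (1 - a') / 32 := ⟨_, rfl⟩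
  have hθ0 : 0 < θ := by
    rw [hθ]
    have : 0 < min (a' - a) (1 - a') := lt_min (by linarith) (by linarith)
    positivity
  have hθ1 : a + 8 * θ ≤ a' := by
    have := min_le_left (a' - a) (1 - a')
    have h2 : 32 * θ = min (a' - a) (1 - a') := by rw [hθ]; ring
    linarith
  have hθ2 : 8 * θ ≤ 1 - a' := by
    have := min_le_right (a' - a) (1 - a')
    have h2 : 32 * θ = min (a' - a) (1 - a') := by rw [hθ]; ring
    linarith
  obtain ⟨c, hc⟩ : ∃ c, c = min ((2 : ℝ)⁻¹ ^ 60) (θ / 64) := ⟨_, rfl⟩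
  have hc0 : 0 < c := by rw [hc]; exact lt_min (by positivity) (by positivity)
  have hc1 : c ≤ (2 : ℝ)⁻¹ ^ 60 := by rw [hc]; exact min_le_left _ _
  have hc2 : 64 * c ≤ θ := by
    have : c ≤ θ / 64 := by rw [hc]; exact min_le_right _ _
    linarith
  refine ⟨c, hc0, fun C => ?_⟩
  filter_upwards [ev_facts hθ0 C] with n hn
  obtain ⟨hL, hLw, hw6, hCw⟩ := hn
  intro k hk hkc N t S G hN ht hS hG
  -- n is large
  have hn0 : 0 < n := by
    rcases Nat.eq_zero_or_pos n with h | h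
    · rw [h] at hL
      norm_num at hL
    · exact h
  have hnR : (0 : ℝ) < n := by exact_mod_cast hn0
  have hn1R : (1 : ℝ) ≤ n := by exact_mod_cast hn0
  obtain ⟨l, hl⟩ : ∃ l, l = Nat.log 2 n := ⟨_, rfl⟩
  have hl1 : 2 ^ l ≤ n := by rw [hl]; exact Nat.pow_log_le_self 2 hn0.ne'
  have hl2 : n < 2 ^ (l + 1) := by rw [hl]; exact Nat.lt_pow_succ_log_self (by norm_num) n
  have hl3 : Real.log n < l + 1 := by
    have h1 : (n : ℝ) < 2 ^ (l + 1) := by exact_mod_cast hl2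
    have h2 : (2 : ℝ) ^ (l + 1) ≤ Real.exp ((l + 1 : ℕ) : ℝ) := two_pow_le (l + 1)
    rw [Real.log_lt_iff_lt_exp hnR]
    refine h1.trans_le (h2.trans_eq ?_)
    push_cast
    rfl
  have hc60 : c * 2 ^ 60 ≤ 1 := by
    calc c * 2 ^ 60 ≤ (2 : ℝ)⁻¹ ^ 60 * 2 ^ 60 := by gcongr
      _ = 1 := by norm_num
  have hk60 : (k : ℝ) * 2 ^ 60 ≤ Real.log n := by
    calc (k : ℝ) * 2 ^ 60 ≤ c * Real.log n * 2 ^ 60 := by gcongr
      _ = (c * 2 ^ 60) * Real.log n := by ring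
      _ ≤ 1 * Real.log n := by gcongr
      _ = Real.log n := one_mul _
  have hkR : (1 : ℝ) ≤ k := by exact_mod_cast hk
  have h32 : 32 * k + 10 ≤ l := by
    have : ((32 * k + 10 : ℕ) : ℝ) < l + 1 := by
      push_cast
      norm_num at hk60
      linarith
    have h2 : 32 * k + 10 < l + 1 := by exact_mod_cast this
    omega
  obtain ⟨D, hD⟩ : ∃ D : ℕ, D = 2 ^ (32 * k + 3) := ⟨_, rfl⟩
  obtain ⟨m, hm⟩ : ∃ m : ℕ, m = 2 ^ (l - 32 * k - 5) := ⟨_, rfl⟩
  have hNm : N = 2 * D * m := by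
    rw [hN, hD, hm, ← hl, mul_comm 2, ← pow_succ, ← pow_add]
    congr 1
    omega
  have hN4 : n < 4 * N := by
    rw [hN, ← hl]
    calc n < 2 ^ (l + 1) := hl2
      _ = 4 * 2 ^ (l - 1) := by
        rw [show (4 : ℕ) = 2 ^ 2 by norm_num, ← pow_add]
        congr 1
        omega
  have hN2 : 2 * N ≤ n := by
    rw [hN, ← hl]
    calc 2 * 2 ^ (l - 1) = 2 ^ l := by
          rw [mul_comm, ← pow_succ]
          congr 1
          omega
      _ ≤ n := hl1
  have hN32 : 32 * k ≤ N := by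
    rw [hN, ← hl]
    calc 32 * k ≤ 2 ^ (32 * k) := Nat.lt_two_pow_self.le
      _ ≤ 2 ^ (l - 1) := Nat.pow_le_pow_right (by norm_num) (by omega)
  have hNge2 : 2 ≤ N := by omega
  have hNR : (2 : ℝ) ≤ N := by exact_mod_cast hNge2
  have hNR4 : (n : ℝ) / 4 ≤ N := by
    have : (n : ℝ) < 4 * N := by exact_mod_cast hN4
    linarith
  have htN' : (t : ℝ) ≤ (N : ℝ) ^ a' := by
    rw [ht]; exact Nat.floor_le (by positivity)
  have htN : t ≤ N := by
    have h1 : (N : ℝ) ^ a' ≤ (N : ℝ) ^ (1 : ℝ) :=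
      Real.rpow_le_rpow_of_exponent_le (by linarith) ha1.le
    rw [Real.rpow_one] at h1
    exact_mod_cast htN'.trans h1
  obtain ⟨g, hg⟩ : ∃ g, g = t / (144 * D ^ 2) := ⟨_, rfl⟩
  obtain ⟨p1, p2, p3, p4, p5, p6⟩ := params hk hD hNm hN4 htN hg hN32
  obtain ⟨r, hr⟩ : ∃ r, r = 2 * (8 * k) ^ 2 := ⟨_, rfl⟩
  refine ⟨8 * k, r, N / (16 * k), 2 * m, m, g, by omega, p1, by rw [hr]; exact p2,
    by rw [hr]; exact p3, by rw [hr], p4, p5, p6, ?_⟩
  -- the real quantities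
  obtain ⟨A, hA⟩ : ∃ A : ℝ, A = (n : ℝ) ^ a := ⟨_, rfl⟩
  obtain ⟨w, hw⟩ : ∃ w : ℝ, w = (n : ℝ) ^ θ := ⟨_, rfl⟩
  rw [← hw] at hLw hw6 hCw
  have hA1 : 1 ≤ A := by rw [hA]; exact Real.one_le_rpow hn1R ha
  have hw1 : 1 ≤ w := by linarith
  have hw0 : 0 < w := by linarith
  have hA0 : 0 < A := by linarith
  have hw8 : w ^ 8 = (n : ℝ) ^ (8 * θ) := by
    rw [hw, mul_comm, Real.rpow_mul hnR.le, ← Real.rpow_natCast]; norm_num
  have hX : A * w ^ 8 ≤ (n : ℝ) ^ a' := by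
    rw [hw8, hA, ← Real.rpow_add hnR]
    exact Real.rpow_le_rpow_of_exponent_le hn1R hθ1
  have hY : w ^ 8 ≤ (n : ℝ) ^ (1 - a') := by
    rw [hw8]
    exact Real.rpow_le_rpow_of_exponent_le hn1R hθ2
  have quarter : ∀ s : ℝ, 0 ≤ s → s ≤ 1 → (n : ℝ) ^ s / 4 ≤ (N : ℝ) ^ s := by
    intro s hs0 hs1
    have h1 : ((n : ℝ) / 4) ^ s ≤ (N : ℝ) ^ s := Real.rpow_le_rpow (by positivity) hNR4 hs0
    refine le_trans ?_ h1
    rw [Real.div_rpow hnR.le (by norm_num)]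
    have h2 : (4 : ℝ) ^ s ≤ 4 := by
      have := Real.rpow_le_rpow_of_exponent_le (by norm_num : (1 : ℝ) ≤ 4) hs1
      rwa [Real.rpow_one] at this
    gcongr
  have ha0' : 0 ≤ a' := by linarith
  have hXN : A * w ^ 8 / 4 ≤ (N : ℝ) ^ a' :=
    le_trans (by gcongr) (quarter a' ha0' ha1.le)
  have hYN : w ^ 8 / 4 ≤ (N : ℝ) ^ (1 - a') :=
    le_trans (by gcongr) (quarter (1 - a') (by linarith) (by linarith))
  have hXYN : (N : ℝ) ^ a' * (N : ℝ) ^ (1 - a') = N := by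
    rw [← Real.rpow_add (by linarith)]
    norm_num
  have hDw : (D : ℝ) ^ 2 ≤ 64 * w := by
    have h1 : (2 : ℝ) ^ (64 * k) ≤ w := by
      have h2 := two_pow_le (64 * k)
      refine h2.trans ?_
      rw [hw, Real.rpow_def_of_pos hnR]
      refine Real.exp_le_exp.2 ?_
      push_cast
      calc 64 * (k : ℝ) ≤ 64 * (c * Real.log n) := by gcongr
        _ = (64 * c) * Real.log n := by ring
        _ ≤ θ * Real.log n := by gcongr
        _ = Real.log n * θ := mul_comm _ _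
    calc (D : ℝ) ^ 2 = 64 * 2 ^ (64 * k) := by
          rw [hD]
          push_cast
          rw [← pow_mul, show (64 : ℝ) * 2 ^ (64 * k) = 2 ^ 6 * 2 ^ (64 * k) by norm_num, ← pow_add]
          congr 1
          ring
      _ ≤ 64 * w := by gcongr
  have hD1 : (1 : ℝ) ≤ D := by
    have : 1 ≤ D := by rw [hD]; exact Nat.one_le_two_pow
    exact_mod_cast this
  have hDw' : (D : ℝ) ≤ 8 * w := aux1 hDw hw1 (by linarith)
  have hNmR : (N : ℝ) = 2 * D * m := by rw [hNm]; push_cast; ring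
  have hkw : (k : ℝ) ≤ w := by
    have : (k : ℝ) ≤ k * 2 ^ 60 := le_mul_of_one_le_right (by linarith) (by norm_num)
    exact this.trans (hk60.trans hLw)
  have hrR : (r : ℝ) = 128 * (k : ℝ) ^ 2 := by rw [hr]; push_cast; ring
  have hrw : (r : ℝ) + 2 ≤ w ^ 3 := by
    rw [hrR]
    have h1 : (k : ℝ) ^ 2 ≤ w ^ 2 := by gcongr
    have h2 : (1 : ℝ) ≤ w ^ 2 := one_le_pow₀ hw1
    calc 128 * (k : ℝ) ^ 2 + 2 ≤ 130 * w ^ 2 := by linarith
      _ ≤ w * w ^ 2 := by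
          have : (130 : ℝ) ≤ w := by linarith
          gcongr
      _ = w ^ 3 := by ring
  have hGw : (G : ℝ) + 2 ≤ A * w := by
    have h1 : ((n : ℝ) + 1) ^ a ≤ 2 * A := by
      have h2 : ((n : ℝ) + 1) ^ a ≤ (2 * n) ^ a := Real.rpow_le_rpow (by positivity) (by linarith) ha
      rw [Real.mul_rpow (by norm_num) hnR.le, ← hA] at h2
      have h3 : (2 : ℝ) ^ a ≤ 2 := by
        have := Real.rpow_le_rpow_of_exponent_le (by norm_num : (1 : ℝ) ≤ 2) (haa.trans ha1).le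
        rwa [Real.rpow_one] at this
      refine h2.trans ?_
      gcongr
    have h4 : (G : ℝ) ≤ |C| * (2 * A) := by
      refine hG.trans ?_
      calc C * ((n : ℝ) + 1) ^ a ≤ |C| * ((n : ℝ) + 1) ^ a := by
            gcongr
            exact le_abs_self C
        _ ≤ |C| * (2 * A) := by gcongr
    calc (G : ℝ) + 2 ≤ |C| * (2 * A) + 2 * A := by linarith
      _ = (2 * |C| + 2) * A := by ring
      _ ≤ w * A := by gcongr
      _ = A * w := mul_comm _ _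
  -- first inequality
  have hgw : A * w ^ 5 ≤ (g : ℝ) + 1 := by
    have h1 : (t : ℝ) < (g + 1) * (144 * D ^ 2) := by
      have h2 := Nat.lt_div_mul_add (a := t) (b := 144 * D ^ 2) (by
        have : 0 < D := by rw [hD]; positivity
        positivity)
      rw [← hg] at h2
      have h3 : t < (g + 1) * (144 * D ^ 2) := by linarith [h2]
      exact_mod_cast h3
    have h4 : (N : ℝ) ^ a' < t + 1 := by
      rw [ht]; exact Nat.lt_floor_add_one _
    have h5 : (g + 1 : ℝ) * (144 * D ^ 2) ≤ (g + 1) * (9216 * w) := by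
      have : (144 : ℝ) * D ^ 2 ≤ 9216 * w := by linarith
      gcongr
    have h6 : A * w ^ 8 / 4 - 1 ≤ (g + 1) * (9216 * w) := by linarith
    have h7 : A * w ^ 5 * (9216 * w) ≤ A * w ^ 8 / 4 - 1 := by
      have e1 : (1 : ℝ) ≤ A * w ^ 6 := aux2 hA1 hw1
      have e2 : (10 : ℝ) ^ 6 * (A * w ^ 6) ≤ A * w ^ 8 := by
        calc (10 : ℝ) ^ 6 * (A * w ^ 6) ≤ w * (A * w ^ 6) := by gcongr
          _ = A * w ^ 7 * 1 := by ring
          _ ≤ A * w ^ 7 * w := by gcongr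
          _ = A * w ^ 8 := by ring
      exact aux3 e1 e2
    exact le_of_mul_le_mul_right (h7.trans h6) (by positivity)
  have hAw4 : A * w + w ^ 3 + w + 2 < A * w ^ 5 := by
    have e1 : w ≤ A * w ^ 4 := by
      calc w = 1 * (1 * w) := by ring
        _ ≤ A * (w ^ 3 * w) := by
          have := one_le_pow₀ hw1 (n := 3)
          gcongr
        _ = A * w ^ 4 := by ring
    have e2 : A * w ≤ A * w ^ 4 := by
      calc A * w = A * (1 * w) := by ring
        _ ≤ A * (w ^ 3 * w) := by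
          have := one_le_pow₀ hw1 (n := 3)
          gcongr
        _ = A * w ^ 4 := by ring
    have e3 : w ^ 3 ≤ A * w ^ 4 := by
      calc w ^ 3 = 1 * (w ^ 3 * 1) := by ring
        _ ≤ A * (w ^ 3 * w) := by gcongr
        _ = A * w ^ 4 := by ring
    have e4 : 1 ≤ A * w ^ 4 := by linarith
    calc A * w + w ^ 3 + w + 2 ≤ 5 * (A * w ^ 4) := by linarith
      _ < w * (A * w ^ 4) := by
        have : (5 : ℝ) < w := by linarith
        gcongr
      _ = A * w ^ 5 := by ring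
  have I1 : (2 : ℝ) ^ (G + r + 3) * (t + 1) < 3 ^ g := by
    refine fin1 hn0 (by omega) ?_
    linarith
  -- second inequality
  have hlogN : Real.log n ≤ Real.log N + 2 := by
    have h1 : (n : ℝ) ≤ N * Real.exp 2 := by
      have h2 := two_pow_le 2
      push_cast at h2
      have h3 : (n : ℝ) ≤ 4 * N := by exact_mod_cast hN4.le
      exact aux4 (by linarith) h3 h2
    have h2 := Real.log_le_log hnR h1
    rwa [Real.log_mul (by linarith) (Real.exp_pos _).ne', Real.log_exp] at h2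
  have hlogN1 : 1 ≤ Real.log N := by linarith
  have hlogN2 : Real.log n ≤ 2 * Real.log N := by linarith
  have hm0 : (0 : ℝ) ≤ m := Nat.cast_nonneg _
  have Q1 : 4 * (((r : ℝ) + 2) * (G + 2)) ≤ m * Real.log N := by
    have h1 : ((r : ℝ) + 2) * (G + 2) ≤ w ^ 3 * (A * w) := by gcongr
    have h2 : A * w ^ 16 / 16 ≤ 2 * D * m := by
      rw [← hNmR, ← hXYN]
      calc A * w ^ 16 / 16 = (A * w ^ 8 / 4) * (w ^ 8 / 4) := by ring
        _ ≤ (N : ℝ) ^ a' * (N : ℝ) ^ (1 - a') := by gcongr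
    have h3 : A * w ^ 16 / 16 ≤ 2 * (8 * w) * m := by
      refine h2.trans ?_
      gcongr
    have h4 : A * w ^ 15 ≤ 256 * m := by
      exact le_of_mul_le_mul_right (aux5 h3) hw0
    have h5 : 4 * (w ^ 3 * (A * w)) ≤ m := by
      have e1 : (1024 : ℝ) * (A * w ^ 4) ≤ A * w ^ 15 := by
        have : (1 : ℝ) ≤ w ^ 10 := one_le_pow₀ hw1
        calc (1024 : ℝ) * (A * w ^ 4) ≤ w * (A * w ^ 4) * 1 := by
              exact aux7 (by linarith) (mul_pos hA0 (pow_pos hw0 4)).le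
          _ ≤ w * (A * w ^ 4) * w ^ 10 := by gcongr
          _ = A * w ^ 15 := by ring
      exact aux6 h4 e1
    calc 4 * (((r : ℝ) + 2) * (G + 2)) ≤ 4 * (w ^ 3 * (A * w)) := by linarith
      _ ≤ m := h5
      _ = m * 1 := (mul_one _).symm
      _ ≤ m * Real.log N := by gcongr
  have Q2 : 4 * (((r : ℝ) + 1) * (c ^ k * n * Real.log n)) ≤ m * Real.log N := by
    have h1 : c ^ k ≤ ((2 : ℝ)⁻¹ ^ 60) ^ k := pow_le_pow_left₀ hc0.le hc1 k
    have hk4 : (k : ℝ) ^ 2 ≤ 4 ^ k := by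
      have h2 : (k : ℝ) ≤ 2 ^ k := by exact_mod_cast Nat.lt_two_pow_self.le
      calc (k : ℝ) ^ 2 ≤ (2 ^ k) ^ 2 := by gcongr
        _ = 4 ^ k := by rw [← pow_mul, mul_comm, pow_mul]; norm_num
    have h4k : (1 : ℝ) ≤ 4 ^ k := one_le_pow₀ (by norm_num)
    have h2 : 64 * ((r : ℝ) + 1) * c ^ k * D ≤ 1 := by
      calc 64 * ((r : ℝ) + 1) * c ^ k * D
          ≤ 64 * (129 * 4 ^ k) * ((2 : ℝ)⁻¹ ^ 60) ^ k * (8 * (2 ^ 32) ^ k) := by
            have e1 : (r : ℝ) + 1 ≤ 129 * 4 ^ k := by rw [hrR]; linarith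
            have e2 : (D : ℝ) ≤ 8 * (2 ^ 32) ^ k := by
              rw [hD]
              push_cast
              rw [pow_add, pow_mul]
              norm_num
              linarith
            gcongr
        _ = 66048 * (4 * (2 : ℝ)⁻¹ ^ 60 * 2 ^ 32) ^ k := by
            rw [mul_pow, mul_pow]; ring
        _ = 66048 * ((2 : ℝ)⁻¹ ^ 26) ^ k := by norm_num
        _ ≤ 66048 * ((2 : ℝ)⁻¹ ^ 26) ^ 1 := by
            have : ((2 : ℝ)⁻¹ ^ 26) ^ k ≤ ((2 : ℝ)⁻¹ ^ 26) ^ 1 :=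
              pow_le_pow_of_le_one (by positivity) (by norm_num) hk
            linarith
        _ ≤ 1 := by norm_num
    have h3 : (n : ℝ) ≤ 8 * D * m := by
      have : (n : ℝ) ≤ 4 * N := by exact_mod_cast hN4.le
      rw [hNmR] at this
      linarith
    calc 4 * (((r : ℝ) + 1) * (c ^ k * n * Real.log n))
        ≤ 4 * (((r : ℝ) + 1) * (c ^ k * (8 * D * m) * (2 * Real.log N))) := by gcongr
      _ = (64 * ((r : ℝ) + 1) * c ^ k * D) * (m * Real.log N) := by ring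
      _ ≤ 1 * (m * Real.log N) := by gcongr
      _ = m * Real.log N := one_mul _
  have Q3 : 4 * (2 * (((2 * m : ℕ) : ℝ) * (32 * k + 4))) ≤ m * Real.log N := by
    have h1 : 16 * (32 * (k : ℝ) + 4) ≤ Real.log N := by
      norm_num at hk60
      linarith
    push_cast
    calc 4 * (2 * (2 * (m : ℝ) * (32 * k + 4))) = m * (16 * (32 * k + 4)) := by ring
      _ ≤ m * Real.log N := by gcongr
  have Q4 : 4 * ((t : ℝ) * (9 * Real.log N)) ≤ m * Real.log N := by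
    have h1 : 36 * (t : ℝ) ≤ m := by
      have e1 : 72 * (D : ℝ) ≤ (N : ℝ) ^ (1 - a') := by
        refine le_trans ?_ hYN
        have e2 : (2304 : ℝ) * w ≤ w ^ 8 := by
          calc (2304 : ℝ) * w ≤ w * w * 1 := by
                exact aux7 (by linarith) hw0.le
            _ ≤ w * w * w ^ 6 := by
                have : (1 : ℝ) ≤ w ^ 6 := one_le_pow₀ hw1
                gcongr
            _ = w ^ 8 := by ring
        linarith
      have e3 : 72 * (D : ℝ) * t ≤ 2 * D * m := by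
        rw [← hNmR, ← hXYN, mul_comm ((N : ℝ) ^ a')]
        gcongr
      have e4 : (36 * (t : ℝ)) * (2 * D) ≤ m * (2 * D) := by linarith
      exact le_of_mul_le_mul_right e4 (by positivity)
    calc 4 * ((t : ℝ) * (9 * Real.log N)) = (36 * t) * Real.log N := by ring
      _ ≤ m * Real.log N := by gcongr
  have hy : 0 ≤ c ^ k * n * Real.log n := by
    have : 0 ≤ Real.log n := by linarith
    positivity
  have I2 := fin2 (G := G) (r := r) (t := t) (m := m) (n0 := 2 * m) hNge2 hy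
    (by rw [show 32 * k + 3 = 4 * (8 * k) + 3 by ring]; exact p1) hS (by
      have e : (G : ℝ) + r + 3 + (r + 1) * (c ^ k * n * Real.log n + 1 + G) =
        ((r : ℝ) + 2) * (G + 2) + (r + 1) * (c ^ k * n * Real.log n) := by ring
      rw [e]
      linarith)
  exact fin3 I1 (by omega) I2

end Pool.Agent.helper12.BP
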